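import Pool.Agent.Lib.MP_2add11_gt.C5.C

/-!
`Wh(ℤ/5)` is infinite cyclic and each of its elements is the torsion of a deformation retract
pair of relative dimension at most two.
-/

namespace Pool.Agent.Results.MP_2add11_gt.CyclicFive

open Pool.Agent.Lib.MP_2add11_gt

theorem result : ∃ e : ℤ ≃+ Wh (Multiplicative (ZMod 5)),
    ∀ k : ℤ, e k ∈ WhStar (Multiplicative (ZMod 5)) := by
  have h0 : ¬ IsOfFinAddOrder (Wh.cls uM) := fun h => lam2_uM (by
    obtain ⟨n, hn, e⟩ := isOfFinAddOrder_iff_nsmul_eq_zero.1 h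
    have := congrArg lam2 e
    rw [map_nsmul, map_zero, nsmul_eq_mul] at this
    exact (mul_eq_zero.1 this).resolve_left (by exact_mod_cast hn.ne'))
  let H : AddSubgroup (Wh G5) :=
    { toAddSubmonoid := FG.Alg (FG.whInv G5), neg_mem' := FG.Alg.neg _ }
  have h1 : Wh.cls uM ∈ H := by
    have := FG.neg_mem_alg (G := G5) ⟨thePair, thePair_torsion⟩
    rwa [neg_neg] at this
  refine ⟨AddEquiv.ofBijective (zmultiplesHom _ (Wh.cls uM))
    ⟨injective_zsmul_iff_not_isOfFinAddOrder.2 h0, fun x => C5.wh_gen x⟩, fun k => ?_⟩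
  have := FG.mem_whStar (H.neg_mem (H.zsmul_mem h1 k))
  rwa [neg_neg] at this

end Pool.Agent.Results.MP_2add11_gt.CyclicFive
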