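import Pool.Agent.Lib.MP_2add11_gt.D5.Gen
import Pool.Agent.Lib.MP_2add11_gt.D5.Sign
import Pool.Agent.Lib.MP_2add11_gt.D5.Two

/-!
For the dihedral group of order ten, `Wh` is infinite cyclic and the torsions of deformation
retract pairs of relative dimension at most two form its subgroup of index two.
-/

namespace Pool.Agent.Results.MP_2add11_gt.DihedralTen

open Pool.Agent.Lib.MP_2add11_gt

theorem result : ∃ e : ℤ ≃+ Wh (DihedralGroup 5),
    ∀ k : ℤ, e k ∈ WhStar (DihedralGroup 5) ↔ Even k := by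
  obtain ⟨lg, sg, h1, h2, h3⟩ := D5.sign_block
  obtain ⟨hu, h4, -⟩ := D5.two_block
  have h0 : ¬ IsOfFinAddOrder ((FG.whInv D5.D).c (FG.u1 D5.g0)) := fun h => h1 (by
    obtain ⟨n, hn, e⟩ := isOfFinAddOrder_iff_nsmul_eq_zero.1 h
    have := congrArg lg e
    rw [map_nsmul, map_zero, nsmul_eq_mul] at this
    exact (mul_eq_zero.1 this).resolve_left (by exact_mod_cast hn.ne'))
  let H : AddSubgroup (Wh D5.D) :=
    { toAddSubmonoid := FG.Alg (FG.whInv D5.D), neg_mem' := FG.Alg.neg _ }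
  refine ⟨AddEquiv.ofBijective (zmultiplesHom _ ((FG.whInv D5.D).c (FG.u1 D5.g0)))
    ⟨injective_zsmul_iff_not_isOfFinAddOrder.2 h0, fun x => D5.wh_gen hu x⟩,
    fun k => ⟨fun h => ?_, ?_⟩⟩
  · have h5 : sg (k • (FG.whInv D5.D).c (FG.u1 D5.g0)) = 0 := h3 _ h
    rw [map_zsmul, show sg ((FG.whInv D5.D).c (FG.u1 D5.g0)) = 1 from h2, zsmul_eq_mul,
      mul_one] at h5
    exact even_iff_two_dvd.2 ((ZMod.intCast_zmod_eq_zero_iff_dvd k 2).1 h5)
  · rintro ⟨j, rfl⟩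
    have h5 : -(2 • (FG.whInv D5.D).c (FG.u1 D5.g0)) ∈ H := FG.neg_mem_alg h4
    have h6 := FG.mem_whStar (H.zsmul_mem h5 j)
    rw [zsmul_neg, neg_neg, two_nsmul, zsmul_add, ← add_zsmul] at h6
    exact h6

end Pool.Agent.Results.MP_2add11_gt.DihedralTen
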