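import Pool.Agent.Lib.MP_2add11_gt.IG.GpNegD
import Pool.Agent.Lib.MP_2add11_gt.IG.VcProd

/-!
`Wh*(G)` is a subgroup of `Wh(G)` for every retract `G` of a subgroup of finite index in
`P × D`, where `P` is a graph product of virtually free groups over a triangle-free graph and
`D` is a finite product of virtually cyclic groups.
-/

namespace Pool.Agent.Results.MP_2add11_gt.GraphFamily

open Pool.Agent.Lib.MP_2add11_gt Pool.Agent.Lib.MP_7eef47_al.GP

theorem result {V : Type} [Finite V] (Γ : SimpleGraph V) (hΓ : Γ.CliqueFree 3) (A : V → Type)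
    [∀ v, Group (A v)] [∀ v, Group.FG (A v)]
    (hA : ∀ v, ∃ M : Subgroup (A v), M.FiniteIndex ∧ IsFreeGroup M)
    (P : Type) [Group P] (e : P ≃* GraphProduct Γ A) {I : Type} [Finite I] (C : I → Type)
    [∀ i, Group (C i)] (hC : ∀ i, ∃ t : C i, (Subgroup.zpowers t).FiniteIndex)
    (N : Subgroup (P × ∀ i, C i)) [N.FiniteIndex]
    (G : Type) [Group G] (f : G →* N) (g : N →* G) (h : ∀ x, g (f x) = x) :
    ∃ H : AddSubgroup (Wh G), (H : Set (Wh G)) = WhStar G := by
  have h1 := (IG.NegCl.graphProduct_prod _ (fun B _ _ H _ _ => IG.ct_vc C hC B H)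
    (fun P _ _ N _ _ => IG.negCl_vc1 C hC P N)
    (fun P P' _ _ _ _ N _ _ N' _ _ => IG.negCl_vc2 C hC P P' N N') hΓ hA).equiv
    (e.prodCongr (MulEquiv.refl _))
  have : Group.IsFinitelyPresented (GraphProduct Γ A) := IG.fp_graphProduct fun v => by
    obtain ⟨M, _, _⟩ := hA v
    exact IG.fp_virtFree M
  have := Group.IsFinitelyPresented.equiv e.symm
  have := IG.fp_vc C hC
  have := IG.fp_prod P (∀ i, C i)
  have := IG.fp_down N
  have := IG.fp_retract f g h
  exact ((h1.subgroup N).retract f g h).whStar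

end Pool.Agent.Results.MP_2add11_gt.GraphFamily
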