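import Pool.Agent.Lib.MP_2add11_gt.IG.Sep7L

/-!
If finite quotients separate the conjugacy classes of powers of elements of finite order above six,
the elements of `Wh*(G)` that come rationally from finite subgroups form a subgroup of `Wh(G)`.
-/

namespace Pool.Agent.Results.MP_2add11_gt.Separable

open Pool.Agent.Lib.MP_2add11_gt

theorem result (G : Type) [Group G] [Group.IsFinitelyPresented G]
    (h : ∀ a b : G, 6 < orderOf a → 6 < orderOf b →
      ∀ x ∈ Subgroup.zpowers a, ∀ y ∈ Subgroup.zpowers b,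
        (∀ (N : Subgroup G) [N.Normal] [N.FiniteIndex], IsConj (x : G ⧸ N) (y : G ⧸ N)) →
          IsConj x y) :
    ∃ H : AddSubgroup (Wh G), (H : Set (Wh G)) = WhStar G ∩
      {τ : Wh G | ∃ k : ℕ, 0 < k ∧ k • τ ∈ AddSubgroup.closure
        {σ : Wh G | ∃ (F : Subgroup G) (_ : Finite F) (n : ℕ) (B : GL (Fin n) (MonoidAlgebra ℤ F))
          (A : GL (Fin n) (MonoidAlgebra ℤ G)),
            A.val = B.val.map (MonoidAlgebra.mapDomainRingHom ℤ F.subtype) ∧ σ = Wh.cls A}} :=
  IG.whStar_loc h

end Pool.Agent.Results.MP_2add11_gt.Separable
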